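import Pool.Agent.N909.CM.Env

set_option autoImplicit false

/-! # Random Collatz maps: parameters -/

open Filter Topology

namespace Pool.Agent.N681.CM

/-- a sum of two exponentials with negative derivative at zero -/
theorem key (a b : ℝ) (h : a + b < 0) :
    ∃ s : ℝ, 0 < s ∧ (Real.exp (a * s) + Real.exp (b * s)) / 2 < 1 := by
  have h1 : HasDerivAt (fun s : ℝ => (Real.exp (a * s) + Real.exp (b * s)) / 2) ((a + b) / 2) 0 := by
    have ha : HasDerivAt (fun s : ℝ => Real.exp (a * s)) a 0 := by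
      have := ((hasDerivAt_id (0 : ℝ)).const_mul a).exp
      simpa using this
    have hb : HasDerivAt (fun s : ℝ => Real.exp (b * s)) b 0 := by
      have := ((hasDerivAt_id (0 : ℝ)).const_mul b).exp
      simpa using this
    exact (ha.add hb).div_const 2
  rw [hasDerivAt_iff_tendsto_slope] at h1
  have h2 : ∀ᶠ s in 𝓝[≠] (0 : ℝ),
      slope (fun s : ℝ => (Real.exp (a * s) + Real.exp (b * s)) / 2) 0 s < 0 :=
    h1.eventually (gt_mem_nhds (by linarith))
  have h3 : ∀ᶠ s in 𝓝[>] (0 : ℝ),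
      slope (fun s : ℝ => (Real.exp (a * s) + Real.exp (b * s)) / 2) 0 s < 0 :=
    h2.filter_mono (nhdsWithin_mono _ fun x hx => ne_of_gt hx)
  obtain ⟨s, hs, hs0⟩ := (h3.and self_mem_nhdsWithin).exists
  have hs0' : (0 : ℝ) < s := hs0
  refine ⟨s, hs0', ?_⟩
  rw [slope_def_field] at hs
  simp only [mul_zero, Real.exp_zero, sub_zero] at hs
  rw [div_lt_iff₀ hs0', zero_mul] at hs
  linarith

theorem small_pos (κ : ℝ) (hκ : 1 / Real.log (4/3) < κ) :
    ∃ s : ℝ, 0 < s ∧ (Real.exp s * (3/2 : ℝ) ^ (κ * s) + (1/2 : ℝ) ^ (κ * s)) / 2 < 1 := by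
  have hl : 0 < Real.log (4/3) := Real.log_pos (by norm_num)
  have h1 : 1 < κ * Real.log (4/3) := by rwa [div_lt_iff₀ hl] at hκ
  have h2 : Real.log (3/2) + Real.log (1/2) = -Real.log (4/3) := by
    rw [← Real.log_mul (by norm_num) (by norm_num), ← Real.log_inv]
    norm_num
  obtain ⟨s, hs, h3⟩ := key (1 + κ * Real.log (3/2)) (κ * Real.log (1/2)) (by
    have : 1 + κ * Real.log (3/2) + κ * Real.log (1/2) =
        1 + κ * (Real.log (3/2) + Real.log (1/2)) := by ring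
    rw [this, h2]
    linarith)
  refine ⟨s, hs, ?_⟩
  have h4 : Real.exp s * (3/2 : ℝ) ^ (κ * s) = Real.exp ((1 + κ * Real.log (3/2)) * s) := by
    rw [Real.rpow_def_of_pos (by norm_num), ← Real.exp_add]
    congr 1
    ring
  have h5 : (1/2 : ℝ) ^ (κ * s) = Real.exp (κ * Real.log (1/2) * s) := by
    rw [Real.rpow_def_of_pos (by norm_num)]
    congr 1
    ring
  rw [h4, h5]
  exact h3

theorem small_neg (κ : ℝ) (_hκ0 : 0 < κ) (hκ : κ < 1 / Real.log (4/3)) :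
    ∃ s : ℝ, 0 < s ∧
      (Real.exp (-s) * (3/2 : ℝ) ^ (-(κ * s)) + (1/2 : ℝ) ^ (-(κ * s))) / 2 < 1 := by
  have hl : 0 < Real.log (4/3) := Real.log_pos (by norm_num)
  have h1 : κ * Real.log (4/3) < 1 := by rwa [lt_div_iff₀ hl] at hκ
  have h2 : Real.log (3/2) + Real.log (1/2) = -Real.log (4/3) := by
    rw [← Real.log_mul (by norm_num) (by norm_num), ← Real.log_inv]
    norm_num
  obtain ⟨s, hs, h3⟩ := key (-(1 + κ * Real.log (3/2))) (-(κ * Real.log (1/2))) (by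
    have : -(1 + κ * Real.log (3/2)) + -(κ * Real.log (1/2)) =
        -1 - κ * (Real.log (3/2) + Real.log (1/2)) := by ring
    rw [this, h2]
    linarith)
  refine ⟨s, hs, ?_⟩
  have h4 : Real.exp (-s) * (3/2 : ℝ) ^ (-(κ * s)) = Real.exp (-(1 + κ * Real.log (3/2)) * s) := by
    rw [Real.rpow_def_of_pos (by norm_num), ← Real.exp_add]
    congr 1
    ring
  have h5 : (1/2 : ℝ) ^ (-(κ * s)) = Real.exp (-(κ * Real.log (1/2)) * s) := by
    rw [Real.rpow_def_of_pos (by norm_num)]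
    congr 1
    ring
  rw [h4, h5]
  exact h3

theorem ratio (u : ℕ → ℝ) (c : ℝ) (h : ∀ n : ℕ, |u n - c * n| ≤ 1) :
    Tendsto (fun n : ℕ => u n / n) atTop (𝓝 c) := by
  rw [tendsto_iff_norm_sub_tendsto_zero]
  refine squeeze_zero' (Eventually.of_forall fun n => norm_nonneg _) ?_ tendsto_one_div_atTop_nhds_zero_nat
  filter_upwards [eventually_gt_atTop 0] with n hn
  have hn' : (0 : ℝ) < n := by exact_mod_cast hn
  have h1 : u n / n - c = (u n - c * n) / n := by field_simp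
  rw [h1, Real.norm_eq_abs, abs_div, abs_of_pos hn']
  exact div_le_div_of_nonneg_right (h n) hn'.le

theorem ratio_true : Tendsto (fun n : ℕ => ((Pool.Agent.N909.CM.stp true n : ℕ) : ℝ) / n) atTop
    (𝓝 (3/2)) := by
  apply ratio
  intro n
  have h1 : Pool.Agent.N909.CM.stp true n = (3 * n + 1) / 2 := by simp [Pool.Agent.N909.CM.stp]
  rw [h1, abs_le]
  have h2 : 3 * n ≤ 2 * ((3 * n + 1) / 2) := by omega
  have h3 : 2 * ((3 * n + 1) / 2) ≤ 3 * n + 1 := by omega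
  have h2' : 3 * (n : ℝ) ≤ 2 * (((3 * n + 1) / 2 : ℕ) : ℝ) := by exact_mod_cast h2
  have h3' : 2 * (((3 * n + 1) / 2 : ℕ) : ℝ) ≤ 3 * (n : ℝ) + 1 := by exact_mod_cast h3
  constructor <;> linarith

theorem ratio_false : Tendsto (fun n : ℕ => ((Pool.Agent.N909.CM.stp false n : ℕ) : ℝ) / n) atTop
    (𝓝 (1/2)) := by
  apply ratio
  intro n
  have h1 : Pool.Agent.N909.CM.stp false n = n / 2 := by simp [Pool.Agent.N909.CM.stp]
  rw [h1, abs_le]
  have h2 : n ≤ 2 * (n / 2) + 1 := by omega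
  have h3 : 2 * (n / 2) ≤ n := by omega
  have h2' : (n : ℝ) ≤ 2 * ((n / 2 : ℕ) : ℝ) + 1 := by exact_mod_cast h2
  have h3' : 2 * ((n / 2 : ℕ) : ℝ) ≤ (n : ℝ) := by exact_mod_cast h3
  constructor <;> linarith

theorem param2 (θ t : ℝ) (_hθ : θ ≠ 0)
    (h : (Real.exp t * (3/2 : ℝ) ^ θ + (1/2 : ℝ) ^ θ) / 2 < 1) :
    ∃ r δ : ℝ, 0 < r ∧ r < 1 ∧ 0 < δ ∧ ∃ K₀ : ℕ, 1 ≤ K₀ ∧ ∀ n : ℕ, K₀ < n →
      (1/2 + δ) * (Real.exp t * ((Pool.Agent.N909.CM.stp true n : ℕ) : ℝ) ^ θ +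
        ((Pool.Agent.N909.CM.stp false n : ℕ) : ℝ) ^ θ) ≤ r * (n : ℝ) ^ θ := by
  set A : ℝ := Real.exp t * (3/2 : ℝ) ^ θ + (1/2 : ℝ) ^ θ with hA
  have hA0 : 0 < A := by positivity
  have hδ : 0 < (1 - A / 2) / (2 * A) := by
    apply div_pos _ (by positivity)
    linarith
  set δ : ℝ := (1 - A / 2) / (2 * A) with hδd
  have hr0 : (1/2 + δ) * A = (A / 2 + 1) / 2 := by
    rw [hδd]
    field_simp
    ring
  have hlim : Tendsto (fun n : ℕ => (1/2 + δ) *
      (Real.exp t * (((Pool.Agent.N909.CM.stp true n : ℕ) : ℝ) / n) ^ θ +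
        (((Pool.Agent.N909.CM.stp false n : ℕ) : ℝ) / n) ^ θ)) atTop (𝓝 ((1/2 + δ) * A)) := by
    apply Tendsto.const_mul
    apply Tendsto.add
    · apply Tendsto.const_mul
      exact ratio_true.rpow_const (Or.inl (by norm_num))
    · exact ratio_false.rpow_const (Or.inl (by norm_num))
  have hlt : (1/2 + δ) * A < ((A / 2 + 1) / 2 + 1) / 2 := by
    rw [hr0]; linarith
  have hev := hlim.eventually (gt_mem_nhds hlt)
  obtain ⟨K, hK⟩ := eventually_atTop.1 hev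
  refine ⟨((A / 2 + 1) / 2 + 1) / 2, δ, by positivity, by linarith, hδ, K + 1, by omega, ?_⟩
  intro n hn
  have hn' : (0 : ℝ) < n := by exact_mod_cast (by omega : 0 < n)
  have h1 := (hK n (by omega)).le
  have hnθ : (0 : ℝ) < (n : ℝ) ^ θ := Real.rpow_pos_of_pos hn' θ
  rw [Real.div_rpow (Nat.cast_nonneg _) hn'.le, Real.div_rpow (Nat.cast_nonneg _) hn'.le] at h1
  have h2 := mul_le_mul_of_nonneg_right h1 hnθ.le
  refine le_trans (le_of_eq ?_) h2
  field_simp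

end Pool.Agent.N681.CM
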